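import Pool.Agent.V8H5.VB.Nec

set_option autoImplicit false

/-! # The parameters of variance-balanced designs with block size 3 without repeated blocks -/

namespace Pool.Agent.Results.MP_588841_co.NoRepeatedBlocks

open Finset Pool.Agent.V8H5.VB

/-- For `v ≥ 2` and `lam ≥ 1` there is a variance-balanced design `VB(v, 3, lam)` without repeated
blocks if and only if `lam ≤ v + 2`, `lam (v - 1)` is even and, in the two cases `lam = 1` and
`lam = v + 1`, `v` is `1` or `3` modulo `6`. -/
theorem result (v lam : ℕ) (hv : 2 ≤ v) (hlam : 1 ≤ lam) :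
    (∃ 𝓑 : Finset (Multiset (Fin v)), IsVB v lam 𝓑) ↔
      (lam ≤ v + 2 ∧ Even (lam * (v - 1)) ∧
        (lam = 1 ∨ lam = v + 1 → v % 6 = 1 ∨ v % 6 = 3)) :=
  vb_iff hv hlam

end Pool.Agent.Results.MP_588841_co.NoRepeatedBlocks
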